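import Pool.Agent.Helper76.TX.StAn

/-!
# Project TX, module AN6: the Mellin transform of `hX`
-/

set_option autoImplicit false

namespace Pool.Agent.Helper42.TX

open Pool.Agent.Helper76.TX Pool.Agent.Helper14.CV
open UpperHalfPlane CongruenceSubgroup
open scoped MatrixGroups
open Filter Asymptotics MeasureTheory

private theorem hX_eq {N D : ℕ} (χ : DirichletCharacter ℂ D) (f : CuspForm (G0 N) 2) :
    hX χ f = fun y => ∑ u ∈ Finset.range D, χ⁻¹ (u : ZMod D) * hU D f u y := rfl

private theorem hX_sum {N D : ℕ} (χ : DirichletCharacter ℂ D) (f : CuspForm (G0 N) 2) :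
    hX χ f = ∑ u ∈ Finset.range D, fun y => χ⁻¹ (u : ZMod D) * hU D f u y := by
  funext y
  rw [Finset.sum_apply]
  rfl

private theorem conv_one {F : ℝ → ℂ} (hc : ContinuousOn F (Set.Ioi 0))
    (ht : F =O[atTop] fun y : ℝ => Real.exp (-(2 * Real.pi) * y))
    (hb : ∀ b : ℝ, F =O[nhdsWithin 0 (Set.Ioi 0)] fun y : ℝ => y ^ (-b)) :
    IntegrableOn F (Set.Ioi 0) := by
  have h := mellinConvergent_of_isBigO_rpow_exp (a := 2 * Real.pi) (b := 0) (s := 1)
    (by positivity) (hc.locallyIntegrableOn measurableSet_Ioi) ht (hb 0) (by simp)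
  have h' : IntegrableOn (fun t : ℝ => (t : ℂ) ^ ((1 : ℂ) - 1) • F t) (Set.Ioi 0) := h
  simpa using h'

private theorem mellin_one (F : ℝ → ℂ) : mellin F 1 = ∫ y in Set.Ioi (0 : ℝ), F y := by
  simp [mellin]

theorem hAN6 : StAN6 := by
  intro hA1 h1 h2 N hN f D hD χ
  have hD0 : 0 < D := Nat.pos_of_ne_zero hD.out
  have hc : ∀ u, ContinuousOn (hU D f u) (Set.Ioi 0) := fun u => (h1 N hN f D u hD0).1
  have ht : ∀ u, hU D f u =O[atTop] fun y : ℝ => Real.exp (-(2 * Real.pi) * y) :=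
    fun u => (h1 N hN f D u hD0).2.1
  have hb : ∀ u, ∀ b : ℝ, hU D f u =O[nhdsWithin 0 (Set.Ioi 0)] fun y : ℝ => y ^ (-b) :=
    fun u => (h1 N hN f D u hD0).2.2
  refine ⟨?_, ?_⟩
  · intro s
    have hcX : ContinuousOn (hX χ f) (Set.Ioi 0) := by
      rw [hX_eq]
      exact continuousOn_finsetSum _ fun u _ => continuousOn_const.mul (hc u)
    have htX : hX χ f =O[atTop] fun y : ℝ => Real.exp (-(2 * Real.pi) * y) := by
      rw [hX_sum]
      exact IsBigO.sum fun u _ => (ht u).const_mul_left _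
    have hbX : hX χ f =O[nhdsWithin 0 (Set.Ioi 0)] fun y : ℝ => y ^ (-(s.re - 1)) := by
      rw [hX_sum]
      exact IsBigO.sum fun u _ => (hb u _).const_mul_left _
    exact mellin_differentiableAt_of_isBigO_rpow_exp (a := 2 * Real.pi) (b := s.re - 1)
      (by positivity) (hcX.locallyIntegrableOn measurableSet_Ioi) htX hbX (by linarith)
  · intro G hG
    rw [mellin_one, hX_eq, integral_finsetSum _ fun u _ => ((conv_one (hc u) (ht u) (hb u)).const_mul _),
      Finset.mul_sum]
    refine Finset.sum_congr rfl fun u _ => ?_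
    rw [integral_const_mul, ← h2 hA1 h1 N hN f G D u hD0 hG]
    ring

end Pool.Agent.Helper42.TX
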